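import Pool.Agent.V1131.LampAut

namespace Pool.Agent.Results.MP_e17fb9_al.NoCopyInWY

open Pool.Agent.V1131.LampAut

universe u

/-- **Answer to Q2.** For every nonabelian finite group `Y` the finite state wreath power `W_Y` of
the regular group `Y` has no subgroup isomorphic to the lamplighter group `Y wr ℤ`. -/
theorem result (Y : Type u) [Group Y] [Finite Y] (hY : ∃ y z : Y, y * z ≠ z * y) :
    ¬ ∃ H : Subgroup (WY Y), Nonempty (H ≃* Lamplighter Y) := by
  rintro ⟨H, ⟨e⟩⟩
  obtain ⟨y, z, hyz⟩ := hY
  refine no_lamplighter_in_WY Y hyz (H.subtype.comp e.symm.toMonoidHom) ?_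
  rw [MonoidHom.coe_comp]
  exact (Subgroup.subtype_injective H).comp e.symm.injective

end Pool.Agent.Results.MP_e17fb9_al.NoCopyInWY
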