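import Pool.Agent.V1131.LampAut

namespace Pool.Agent.Results.MP_e17fb9_al.NotLamplighter

open Pool.Agent.V1131.LampAut

universe u

/-- **Answer to Q1.** For every nonabelian finite group `Y` the automaton group `G_Y` is not
isomorphic to the lamplighter group `Y wr ℤ`. -/
theorem result (Y : Type u) [Group Y] [Finite Y] (hY : ∃ y z : Y, y * z ≠ z * y) :
    ¬ Nonempty (GY Y ≃* Lamplighter Y) := by
  rintro ⟨e⟩
  obtain ⟨y, z, hyz⟩ := hY
  refine no_lamplighter_in_WY Y hyz ((Subgroup.inclusion (GY_le_WY Y)).comp e.symm.toMonoidHom) ?_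
  rw [MonoidHom.coe_comp]
  exact (Subgroup.inclusion_injective _).comp e.symm.injective

end Pool.Agent.Results.MP_e17fb9_al.NotLamplighter
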